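import Pool.Agent.H23.L.Nb.Defs
import Pool.Agent.H23.L.Nb.N1
import Pool.Agent.H23.L.Ev.T8

set_option autoImplicit false

/-! Task N2 (helper676): Oliver-type counting criterion. -/

namespace Pool.Agent.H98R2.Nb

open Finset Pool.Agent.H98R2.Ev

universe u

section N2
variable {X : Type u} [DecidableEq X] [PartialOrder X] [Fintype X]

omit [DecidableEq X] [PartialOrder X] [Fintype X] in
open Classical in
theorem n2_count_aux [PartialOrder X] [Fintype X] (q t : ℕ) [Fact q.Prime] (g : X ≃o X)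
    (hq : ∀ x, g^[q ^ t] x = x)
    (R : Finset X → Prop) (hR : ∀ σ, R σ → R (σ.map g.toEmbedding)) (S S' : Finset (Finset X))
    (hS : ∀ σ, σ ∈ S ↔ R σ) (hS' : ∀ σ, σ ∈ S' ↔ R σ ∧ σ.map g.toEmbedding = σ) :
    S.card ≡ S'.card [MOD q] := by
  obtain ⟨f, hf⟩ : ∃ f : {σ : Finset X // R σ} → {σ : Finset X // R σ},
      ∀ y, f y = ⟨y.1.map g.toEmbedding, hR y.1 y.2⟩ := ⟨fun y => ⟨_, hR y.1 y.2⟩, fun y => rfl⟩
  have hit : ∀ (m : ℕ) (y : {σ : Finset X // R σ}),
      ((f^[m] y).1 : Finset X) = y.1.image (g^[m]) := by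
    intro m
    induction m with
    | zero => intro y; simp
    | succ m ih =>
      intro y
      rw [Function.iterate_succ_apply', hf]
      change (f^[m] y).1.map g.toEmbedding = _
      rw [Finset.map_eq_image, ih, Finset.image_image]
      congr 1
      rw [Function.iterate_succ']
      rfl
  obtain ⟨F, hF⟩ : ∃ F : Function.End {σ : Finset X // R σ}, F = f := ⟨f, rfl⟩
  have hfq : F ^ q ^ t = 1 := by
    rw [end_pow_aux f F hF]
    funext y
    apply Subtype.ext
    change (f^[q ^ t] y).1 = y.1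
    rw [hit (q ^ t) y]
    have h3 : (g^[q ^ t]) = id := funext hq
    rw [h3, Finset.image_id]
  have key := Equiv.Perm.card_fixedPoints_modEq (p := q) (n := t) hfq
  have key2 : Fintype.card {σ : Finset X // R σ} ≡
      Fintype.card (Function.fixedPoints f) [MOD q] := by
    subst hF
    exact key
  have e1 : Fintype.card {σ : Finset X // R σ} = S.card := by
    rw [Fintype.card_subtype]
    congr 1
    ext σ
    simp [hS]
  have e2 : Fintype.card (Function.fixedPoints f) = S'.card := by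
    have e3 : S' = univ.filter (fun σ : Finset X => R σ ∧ σ.map g.toEmbedding = σ) := by
      ext σ
      simp [hS']
    rw [e3, ← Fintype.card_subtype]
    refine Fintype.card_congr ⟨fun y => ⟨y.1.1, y.1.2, ?_⟩, fun z => ⟨⟨z.1, z.2.1⟩, ?_⟩, ?_, ?_⟩
    · have h1 : f y.1 = y.1 := y.2
      rw [hf] at h1
      exact congrArg Subtype.val h1
    · change f _ = _
      rw [hf]
      exact Subtype.ext z.2.2
    · intro y; rfl
    · intro z; rfl
  rw [e1] at key2
  rw [← e2]
  exact key2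

omit [DecidableEq X] [PartialOrder X] in
open Classical in
theorem n2_sum_split (P : Finset X → Prop) :
    (∑ σ ∈ univ.filter (fun σ : Finset X => P σ), (-1 : ℤ) ^ σ.card) =
      ((univ.filter (fun σ : Finset X => P σ ∧ Even σ.card)).card : ℤ) -
      ((univ.filter (fun σ : Finset X => P σ ∧ ¬ Even σ.card)).card : ℤ) := by
  rw [← Finset.sum_filter_add_sum_filter_not (univ.filter (fun σ : Finset X => P σ))
    (fun σ => Even σ.card)]
  rw [Finset.filter_filter, Finset.filter_filter]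
  have h1 : ∑ σ ∈ univ.filter (fun σ : Finset X => P σ ∧ Even σ.card), (-1 : ℤ) ^ σ.card =
      ((univ.filter (fun σ : Finset X => P σ ∧ Even σ.card)).card : ℤ) := by
    rw [Finset.sum_congr rfl (g := fun _ => (1 : ℤ))]
    · simp
    · intro σ hσ
      exact Even.neg_one_pow (Finset.mem_filter.1 hσ).2.2
  have h2 : ∑ σ ∈ univ.filter (fun σ : Finset X => P σ ∧ ¬ Even σ.card), (-1 : ℤ) ^ σ.card =
      - ((univ.filter (fun σ : Finset X => P σ ∧ ¬ Even σ.card)).card : ℤ) := by
    rw [Finset.sum_congr rfl (g := fun _ => (-1 : ℤ))]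
    · simp
    · intro σ hσ
      exact Odd.neg_one_pow (Nat.not_even_iff_odd.1 (Finset.mem_filter.1 hσ).2.2)
  rw [h1, h2]
  ring

open Classical in
theorem n2_fixed_sum (q t : ℕ) [Fact q.Prime] (Q : Finset X) (g : X ≃o X)
    (hg : ∀ x ∈ Q, g x ∈ Q) (hq : ∀ x, g^[q ^ t] x = x) :
    (q : ℤ) ∣ (∑ σ ∈ univ.filter (fun σ : Finset X => Ch (fixIn Q g) σ), (-1 : ℤ) ^ σ.card) -
      ∑ σ ∈ univ.filter (fun σ : Finset X => Ch Q σ), (-1 : ℤ) ^ σ.card := by
  have hq0 : 0 < q ^ t := pow_pos (Fact.out : q.Prime).pos t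
  have hCh : ∀ σ, Ch Q σ → Ch Q (σ.map g.toEmbedding) := by
    intro σ hσ
    refine ⟨?_, ?_⟩
    · intro y hy
      obtain ⟨x, hx, rfl⟩ := Finset.mem_map.1 hy
      exact hg x (hσ.1 hx)
    · intro a ha b hb hab
      have ha' := Finset.mem_coe.1 ha
      have hb' := Finset.mem_coe.1 hb
      obtain ⟨x, hx, rfl⟩ := Finset.mem_map.1 ha'
      obtain ⟨y, hy, rfl⟩ := Finset.mem_map.1 hb'
      have hxy : x ≠ y := fun h => hab (by rw [h])
      rcases hσ.2 (Finset.mem_coe.2 hx) (Finset.mem_coe.2 hy) hxy with h | h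
      · exact Or.inl (g.monotone h)
      · exact Or.inr (g.monotone h)
  have hfix : ∀ σ, (Ch Q σ ∧ σ.map g.toEmbedding = σ) ↔ Ch (fixIn Q g) σ := by
    intro σ
    constructor
    · rintro ⟨h1, h2⟩
      refine ⟨fun x hx => ?_, h1.2⟩
      exact Finset.mem_filter.2 ⟨h1.1 hx, chain_fixed' g σ h1.2 h2 (q ^ t) hq0 hq x hx⟩
    · rintro ⟨h1, h2⟩
      refine ⟨⟨fun x hx => (Finset.mem_filter.1 (h1 hx)).1, h2⟩, ?_⟩
      ext y
      constructor
      · intro hy
        obtain ⟨x, hx, rfl⟩ := Finset.mem_map.1 hy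
        have h3 : g x = x := (Finset.mem_filter.1 (h1 hx)).2
        have h4 : g.toEmbedding x = x := h3
        rw [h4]
        exact hx
      · intro hy
        exact Finset.mem_map.2 ⟨y, hy, (Finset.mem_filter.1 (h1 hy)).2⟩
  have hE := n2_count_aux q t g hq (fun σ => Ch Q σ ∧ Even σ.card)
    (fun σ h => ⟨hCh σ h.1, by rw [Finset.card_map]; exact h.2⟩)
    (univ.filter (fun σ : Finset X => Ch Q σ ∧ Even σ.card))
    (univ.filter (fun σ : Finset X => Ch (fixIn Q g) σ ∧ Even σ.card)) (by intro σ; simp) (by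
      intro σ
      rw [Finset.mem_filter, ← hfix]
      simp only [Finset.mem_univ, true_and]
      tauto)
  have hO := n2_count_aux q t g hq (fun σ => Ch Q σ ∧ ¬ Even σ.card)
    (fun σ h => ⟨hCh σ h.1, by rw [Finset.card_map]; exact h.2⟩)
    (univ.filter (fun σ : Finset X => Ch Q σ ∧ ¬ Even σ.card))
    (univ.filter (fun σ : Finset X => Ch (fixIn Q g) σ ∧ ¬ Even σ.card)) (by intro σ; simp) (by
      intro σ
      rw [Finset.mem_filter, ← hfix]
      simp only [Finset.mem_univ, true_and]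
      tauto)
  rw [n2_sum_split (fun σ => Ch (fixIn Q g) σ), n2_sum_split (fun σ => Ch Q σ)]
  have hE' := (Nat.modEq_iff_dvd.1 hE)
  have hO' := (Nat.modEq_iff_dvd.1 hO)
  obtain ⟨a, ha⟩ := hE'
  obtain ⟨b, hb⟩ := hO'
  refine ⟨a - b, ?_⟩
  rw [mul_sub, ← ha, ← hb]
  ring

end N2

open Classical in
/-- N2 -/
theorem count_criterion_of
    (hN1 : ∀ {Ω : Type} [Fintype Ω] [DecidableEq Ω] (𝒟 : Finset Ω → Prop)
      (_ : ∀ A B, A ⊆ B → 𝒟 B → 𝒟 A) (_ : 𝒟 ∅),
      ∑ σ ∈ univ.filter (fun σ : Finset (Finset Ω) =>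
        Ch (univ.filter (fun A : Finset Ω => A.Nonempty ∧ 𝒟 A)) σ), (-1 : ℤ) ^ σ.card =
      ∑ A ∈ univ.filter (fun A : Finset Ω => 𝒟 A), (-1 : ℤ) ^ A.card)
    {E : Type} [DecidableEq E] [Fintype E] (D : Finset E → Prop)
    (hdown : ∀ S T, S ⊆ T → D T → D S)
    (hne : NE univ D) (h0 : D ∅) {ι : Type} [Fintype ι] (p q t : ℕ) [Fact p.Prime] [Fact q.Prime]
    (a : ι → Equiv.Perm E) (c h : Equiv.Perm E)
    (hcomm : ∀ i j, a i * a j = a j * a i) (hap : ∀ i, a i ^ p = 1) (hq : h ^ (q ^ t) = 1)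
    (hDa : ∀ i S, D S → D (S.map (a i).toEmbedding))
    (hDc : ∀ S, D S → D (S.map c.toEmbedding))
    (hDh : ∀ S, D S → D (S.map h.toEmbedding))
    (hca : ∀ S : Finset E, (∀ i, S.map (a i).toEmbedding = S) →
      ∀ i, (S.map c.toEmbedding).map (a i).toEmbedding = S.map c.toEmbedding)
    (hha : ∀ S : Finset E, (∀ i, S.map (a i).toEmbedding = S) → S.map c.toEmbedding = S →
      (∀ i, (S.map h.toEmbedding).map (a i).toEmbedding = S.map h.toEmbedding) ∧
      (S.map h.toEmbedding).map c.toEmbedding = S.map h.toEmbedding)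
    {Ω : Type} [Fintype Ω] [DecidableEq Ω] (g : Finset Ω → Finset E)
    (hg : ∀ A B, g A ⊆ g B ↔ A ⊆ B)
    (hgi : ∀ A, (∀ i, (g A).map (a i).toEmbedding = g A) ∧ (g A).map c.toEmbedding = g A ∧
      (g A).map h.toEmbedding = g A)
    (hgs : ∀ S, D S → (∀ i, S.map (a i).toEmbedding = S) → S.map c.toEmbedding = S →
      S.map h.toEmbedding = S → ∃ A, g A = S) :
    (q : ℤ) ∣ ∑ A ∈ univ.filter (fun A : Finset Ω => D (g A)), (-1 : ℤ) ^ A.card := by
  have hmem : ∀ S : Finset E, S ∈ faces univ D ↔ S.Nonempty ∧ D S := by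
    intro S
    simp [faces]
  have hA : Acyc (ZMod p) (faces univ D) := by
    rcases ne_acyc (F := ZMod p) univ D (fun S T h _ hT => hdown S T h hT) hne with h | h
    · exact absurd h0 (h ∅ (empty_subset _))
    · exact h
  have hJ : ∀ J : Finset ι, Acyc (ZMod p)
      ((faces univ D).filter (fun S => ∀ i ∈ J, S.map (a i).toEmbedding = S)) := by
    intro J
    induction J using Finset.induction_on with
    | empty => simpa using hA
    | insert i J hi ih =>
      have h1 := smith p _ ih (act (a i)) (by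
        intro S hS
        rw [Finset.mem_filter, hmem] at hS ⊢
        obtain ⟨⟨hS1, hS2⟩, hS3⟩ := hS
        rw [act_apply]
        refine ⟨⟨(Finset.map_nonempty).2 hS1, hDa i S hS2⟩, ?_⟩
        intro j hj
        rw [← map_mul_perm, hcomm j i, map_mul_perm, hS3 j hj]) (by
        intro S
        rw [act_iter, hap i, map_one_perm])
      have h2 : (faces univ D).filter (fun S => ∀ j ∈ insert i J, S.map (a j).toEmbedding = S) =
          fixIn ((faces univ D).filter (fun S => ∀ j ∈ J, S.map (a j).toEmbedding = S))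
            (act (a i)) := by
        ext S
        constructor
        · intro hS
          obtain ⟨h1, h3⟩ := Finset.mem_filter.1 hS
          refine Finset.mem_filter.2 ⟨Finset.mem_filter.2
            ⟨h1, fun j hj => h3 j (Finset.mem_insert_of_mem hj)⟩, ?_⟩
          exact h3 i (Finset.mem_insert_self i J)
        · intro hS
          obtain ⟨h1, h3⟩ := Finset.mem_filter.1 hS
          obtain ⟨h1, h2⟩ := Finset.mem_filter.1 h1
          refine Finset.mem_filter.2 ⟨h1, fun j hj => ?_⟩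
          rcases Finset.mem_insert.1 hj with rfl | hj
          · exact h3
          · exact h2 j hj
      rw [h2]
      exact h1
  set QP := (faces univ D).filter (fun S => ∀ i ∈ (univ : Finset ι), S.map (a i).toEmbedding = S)
    with hQP
  have hmemP : ∀ S : Finset E, S ∈ QP ↔
      (S.Nonempty ∧ D S) ∧ ∀ i, S.map (a i).toEmbedding = S := by
    intro S
    rw [hQP, Finset.mem_filter, hmem]
    simp
  have hL := lefschetz p QP (hJ univ) (act c) (by
    intro S hS
    rw [hmemP] at hS ⊢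
    obtain ⟨⟨hS1, hS2⟩, hS3⟩ := hS
    rw [act_apply]
    exact ⟨⟨(Finset.map_nonempty).2 hS1, hDc S hS2⟩, hca S hS3⟩)
  have hmemC : ∀ S : Finset E, S ∈ fixIn QP (act c) ↔
      ((S.Nonempty ∧ D S) ∧ ∀ i, S.map (a i).toEmbedding = S) ∧ S.map c.toEmbedding = S := by
    intro S
    constructor
    · intro hS
      obtain ⟨h1, h2⟩ := Finset.mem_filter.1 hS
      exact ⟨(hmemP S).1 h1, h2⟩
    · rintro ⟨h1, h2⟩
      exact Finset.mem_filter.2 ⟨(hmemP S).2 h1, h2⟩
  have hC := n2_fixed_sum q t (fixIn QP (act c)) (act h) (by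
    intro S hS
    rw [hmemC] at hS ⊢
    obtain ⟨⟨⟨hS1, hS2⟩, hS3⟩, hS4⟩ := hS
    rw [act_apply]
    obtain ⟨h1, h2⟩ := hha S hS3 hS4
    exact ⟨⟨⟨(Finset.map_nonempty).2 hS1, hDh S hS2⟩, h1⟩, h2⟩) (by
    intro S
    rw [act_iter, hq, map_one_perm])
  rw [hL, sub_zero] at hC
  have hmemH : ∀ S : Finset E, S ∈ fixIn (fixIn QP (act c)) (act h) ↔
      (((S.Nonempty ∧ D S) ∧ ∀ i, S.map (a i).toEmbedding = S) ∧ S.map c.toEmbedding = S) ∧
        S.map h.toEmbedding = S := by
    intro S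
    constructor
    · intro hS
      obtain ⟨h1, h2⟩ := Finset.mem_filter.1 hS
      exact ⟨(hmemC S).1 h1, h2⟩
    · rintro ⟨h1, h2⟩
      exact Finset.mem_filter.2 ⟨(hmemC S).2 h1, h2⟩
  -- the embedding `g`
  have hginj : Function.Injective g := by
    intro A B hAB
    exact Finset.Subset.antisymm ((hg A B).1 (by rw [hAB])) ((hg B A).1 (by rw [hAB]))
  have hg0 : g ∅ = ∅ := by
    obtain ⟨A, hA⟩ := hgs ∅ h0 (fun i => Finset.map_empty _) (Finset.map_empty _)
      (Finset.map_empty _)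
    have h1 : g ∅ ⊆ g A := (hg _ _).2 (Finset.empty_subset _)
    rw [hA] at h1
    exact Finset.subset_empty.1 h1
  have hgne : ∀ A, (g A).Nonempty ↔ A.Nonempty := by
    intro A
    rw [Finset.nonempty_iff_ne_empty, Finset.nonempty_iff_ne_empty]
    constructor
    · intro h1 h2; exact h1 (by rw [h2, hg0])
    · intro h1 h2; exact h1 (hginj (by rw [h2, hg0]))
  have hN := hN1 (fun A : Finset Ω => D (g A)) (fun A B hAB hB => hdown _ _ ((hg A B).2 hAB) hB)
    (by rw [hg0]; exact h0)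
  rw [← hN]
  have hbij : ∑ σ ∈ univ.filter (fun σ : Finset (Finset Ω) =>
        Ch (univ.filter (fun A : Finset Ω => A.Nonempty ∧ D (g A))) σ), (-1 : ℤ) ^ σ.card =
      ∑ σ ∈ univ.filter (fun σ : Finset (Finset E) =>
        Ch (fixIn (fixIn QP (act c)) (act h)) σ), (-1 : ℤ) ^ σ.card := by
    refine Finset.sum_bij (fun σ _ => σ.map ⟨g, hginj⟩) ?_ ?_ ?_ ?_
    · intro σ hσ
      obtain ⟨-, h1, h2⟩ := Finset.mem_filter.1 hσ
      refine Finset.mem_filter.2 ⟨Finset.mem_univ _, ?_, ?_⟩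
      · intro S hS
        obtain ⟨A, hA, rfl⟩ := Finset.mem_map.1 hS
        obtain ⟨-, hA1, hA2⟩ := Finset.mem_filter.1 (h1 hA)
        obtain ⟨i1, i2, i3⟩ := hgi A
        exact (hmemH _).2 ⟨⟨⟨⟨(hgne A).2 hA1, hA2⟩, i1⟩, i2⟩, i3⟩
      · intro S hS T hT hST
        obtain ⟨A, hA, rfl⟩ := Finset.mem_map.1 (Finset.mem_coe.1 hS)
        obtain ⟨B, hB, rfl⟩ := Finset.mem_map.1 (Finset.mem_coe.1 hT)
        have hAB : A ≠ B := fun h => hST (by rw [h])
        rcases h2 (Finset.mem_coe.2 hA) (Finset.mem_coe.2 hB) hAB with h3 | h3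
        · exact Or.inl ((hg _ _).2 h3)
        · exact Or.inr ((hg _ _).2 h3)
    · intro σ _ τ _ h1
      exact Finset.map_injective _ h1
    · intro τ hτ
      obtain ⟨-, h1, h2⟩ := Finset.mem_filter.1 hτ
      have hex : ∀ S ∈ τ, ∃ A, g A = S := by
        intro S hS
        obtain ⟨⟨⟨⟨-, k2⟩, k3⟩, k4⟩, k5⟩ := (hmemH S).1 (h1 hS)
        exact hgs S k2 k3 k4 k5
      refine ⟨univ.filter (fun A => g A ∈ τ), ?_, ?_⟩
      · refine Finset.mem_filter.2 ⟨Finset.mem_univ _, ?_, ?_⟩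
        · intro A hA
          have hA' := (Finset.mem_filter.1 hA).2
          obtain ⟨⟨⟨⟨k1, k2⟩, k3⟩, k4⟩, k5⟩ := (hmemH _).1 (h1 hA')
          exact Finset.mem_filter.2 ⟨Finset.mem_univ _, (hgne A).1 k1, k2⟩
        · intro A hA B hB hAB
          have hA' := (Finset.mem_filter.1 (Finset.mem_coe.1 hA)).2
          have hB' := (Finset.mem_filter.1 (Finset.mem_coe.1 hB)).2
          rcases h2 (Finset.mem_coe.2 hA') (Finset.mem_coe.2 hB') (fun h => hAB (hginj h))
            with h3 | h3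
          · exact Or.inl ((hg _ _).1 h3)
          · exact Or.inr ((hg _ _).1 h3)
      · ext S
        rw [Finset.mem_map]
        constructor
        · rintro ⟨A, hA, rfl⟩
          exact (Finset.mem_filter.1 hA).2
        · intro hS
          obtain ⟨A, rfl⟩ := hex S hS
          exact ⟨A, Finset.mem_filter.2 ⟨Finset.mem_univ _, hS⟩, rfl⟩
    · intro σ _
      rw [Finset.card_map]
  rw [hbij]
  exact hC

open Classical in
/-- N2, the exact statement (with N1 = `chain_sum`). -/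
theorem count_criterion {E : Type} [DecidableEq E] [Fintype E] (D : Finset E → Prop)
    (hdown : ∀ S T, S ⊆ T → D T → D S)
    (hne : NE univ D) (h0 : D ∅) {ι : Type} [Fintype ι] (p q t : ℕ) [Fact p.Prime] [Fact q.Prime]
    (a : ι → Equiv.Perm E) (c h : Equiv.Perm E)
    (hcomm : ∀ i j, a i * a j = a j * a i) (hap : ∀ i, a i ^ p = 1) (hq : h ^ (q ^ t) = 1)
    (hDa : ∀ i S, D S → D (S.map (a i).toEmbedding))
    (hDc : ∀ S, D S → D (S.map c.toEmbedding))
    (hDh : ∀ S, D S → D (S.map h.toEmbedding))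
    (hca : ∀ S : Finset E, (∀ i, S.map (a i).toEmbedding = S) →
      ∀ i, (S.map c.toEmbedding).map (a i).toEmbedding = S.map c.toEmbedding)
    (hha : ∀ S : Finset E, (∀ i, S.map (a i).toEmbedding = S) → S.map c.toEmbedding = S →
      (∀ i, (S.map h.toEmbedding).map (a i).toEmbedding = S.map h.toEmbedding) ∧
      (S.map h.toEmbedding).map c.toEmbedding = S.map h.toEmbedding)
    {Ω : Type} [Fintype Ω] [DecidableEq Ω] (g : Finset Ω → Finset E)
    (hg : ∀ A B, g A ⊆ g B ↔ A ⊆ B)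
    (hgi : ∀ A, (∀ i, (g A).map (a i).toEmbedding = g A) ∧ (g A).map c.toEmbedding = g A ∧
      (g A).map h.toEmbedding = g A)
    (hgs : ∀ S, D S → (∀ i, S.map (a i).toEmbedding = S) → S.map c.toEmbedding = S →
      S.map h.toEmbedding = S → ∃ A, g A = S) :
    (q : ℤ) ∣ ∑ A ∈ univ.filter (fun A : Finset Ω => D (g A)), (-1 : ℤ) ^ A.card :=
  count_criterion_of (fun D' h1 h2 => chain_sum D' h1 h2) D hdown hne h0 p q t a c h hcomm hap hq
    hDa hDc hDh hca hha g hg hgi hgs

end Pool.Agent.H98R2.Nb
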