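import Pool.Agent.H23.L.Nb.N1
import Pool.Agent.H23.L.Nb.N2
import Pool.Agent.H23.L.Nb.N3
set_option autoImplicit false
namespace Pool.Agent.H98R2.Nb.GC
open Finset Pool.Agent.H98R2.Ev Pool.Agent.H98R2.Nb

theorem countCrit : CountCrit := by
  intro E _ _ D h1 h2 h3 ι _ p q t _ _ a c h h4 h5 h6 h7 h8 h9 h10 h11 Ω _ _ g h12 h13 h14
  exact count_criterion_of (fun 𝒟 hd h0 => chain_sum 𝒟 hd h0) D h1 h2 h3 p q t a c h h4 h5 h6 h7
    h8 h9 h10 h11 g h12 h13 h14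

open Classical in
/-- the counting criterion for graphs (N2: helper676, N3: helper477, N1: helper169) -/
theorem graph_criterion {V : Type} [Fintype V] [DecidableEq V] (P : SimpleGraph V → Prop)
    (hdown : ∀ G G' : SimpleGraph V, G ≤ G' → P G' → P G)
    (hiso : ∀ (s : Equiv.Perm V) (G : SimpleGraph V), P G → P (G.map s.toEmbedding))
    (hbot : P ⊥) (hne : NE (univ : Finset (EV V)) (fun S => P (toG S)))
    {ι : Type} [Fintype ι] (p q t : ℕ) [Fact p.Prime] [Fact q.Prime]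
    (a : ι → Equiv.Perm V) (c h : Equiv.Perm V)
    (hcomm : ∀ i j, a i * a j = a j * a i) (hap : ∀ i, a i ^ p = 1) (hht : h ^ (q ^ t) = 1)
    (hah : ∀ i, a i * h = h * a i)
    (hac : ∀ G : SimpleGraph V, (∀ i, Inv (a i) G) → ∀ i, Inv (c⁻¹ * a i * c) G)
    (hch : ∀ G : SimpleGraph V, (∀ i, Inv (a i) G) → Inv c G → Inv (h⁻¹ * c * h) G)
    {Ω : Type} [Fintype Ω] [DecidableEq Ω] (g : Finset Ω → SimpleGraph V)
    (hg : ∀ A B, g A ≤ g B ↔ A ⊆ B)
    (hga : ∀ A i, Inv (a i) (g A)) (hgc : ∀ A, Inv c (g A)) (hgh : ∀ A, Inv h (g A))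
    (hgs : ∀ G, P G → (∀ i, Inv (a i) G) → Inv c G → Inv h G → ∃ A, g A = G) :
    (q : ℤ) ∣ ∑ A : Finset Ω, if P (g A) then (-1 : ℤ) ^ A.card else 0 :=
  graph_criterion_of countCrit P hdown hiso hbot hne p q t a c h hcomm hap hht hah hac hch g hg
    hga hgc hgh hgs

end Pool.Agent.H98R2.Nb.GC
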