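import Pool.Agent.H23.L.Nb.Defs

set_option autoImplicit false
set_option linter.unusedSectionVars false

/-! N4c: invariance of the graphs `gA w A` and order embedding. -/

namespace Pool.Agent.H98R2.Nb

open Finset Pool.Agent.H98R2.Ev

section N4c

theorem n4c_cg_add {l : ℕ} (w : (ZMod l)ˣ) (T : Finset (Om l w)) (u v c : ZMod l)
    (h : (cg w T).Adj u v) : (cg w T).Adj (u + c) (v + c) := by
  obtain ⟨hne, d, hd, hT⟩ := h
  refine ⟨fun h' => hne (add_right_cancel h'), d, by rw [hd]; ring, hT⟩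

theorem n4c_cg_mul {l : ℕ} (w : (ZMod l)ˣ) (T : Finset (Om l w)) (u v : ZMod l)
    (h : (cg w T).Adj u v) : (cg w T).Adj (w * u) (w * v) := by
  obtain ⟨hne, d, hd, hT⟩ := h
  refine ⟨fun h' => hne ((Units.mul_right_inj w).mp h'), w * d, by rw [hd]; push_cast; ring, ?_⟩
  have h0 : (QuotientGroup.mk (w * d) : Om l w) = QuotientGroup.mk d := by
    rw [QuotientGroup.eq]
    have h1 : (w * d)⁻¹ * d = w⁻¹ := by
      rw [mul_comm w d, mul_inv_rev, mul_assoc, inv_mul_cancel, mul_one]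
    rw [h1]
    exact inv_mem (Subgroup.subset_closure (by simp))
  rw [h0]; exact hT

theorem n4c_cg_mono {l : ℕ} (w : (ZMod l)ˣ) {T T' : Finset (Om l w)} (h : T ⊆ T') (u v : ZMod l)
    (ha : (cg w T).Adj u v) : (cg w T').Adj u v := by
  obtain ⟨hne, d, hd, hT⟩ := ha
  exact ⟨hne, d, hd, h hT⟩

theorem n4c_toG_adj {V : Type} [DecidableEq V] (S : Finset (EV V)) (a b : V) :
    (toG S).Adj a b ↔ ∃ h : ¬ (s(a, b) : Sym2 V).IsDiag, (⟨s(a, b), h⟩ : EV V) ∈ S := by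
  unfold toG
  rw [SimpleGraph.fromEdgeSet_adj]
  constructor
  · rintro ⟨⟨h, hS⟩, _⟩
    exact ⟨h, hS⟩
  · rintro ⟨h, hS⟩
    exact ⟨⟨h, hS⟩, fun hab => h (by rw [hab]; exact Sym2.mk_isDiag_iff.mpr rfl)⟩

theorem n4c_toG_mono {V : Type} [DecidableEq V] {S S' : Finset (EV V)} (h : S ⊆ S') (a b : V)
    (ha : (toG S).Adj a b) : (toG S').Adj a b := by
  rw [n4c_toG_adj] at ha ⊢
  obtain ⟨h1, h2⟩ := ha
  exact ⟨h1, h h2⟩

variable {I J : Type} {F : I → Type} [∀ i, Field (F i)] {ℓ : J → ℕ}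

theorem n4c_blk_tra (t : ∀ i, F i) (x : VB F ℓ) : blk (tra t x) = blk x := by
  rcases x with ⟨i, x⟩ | ⟨j, y⟩ <;> rfl

theorem n4c_blk_cycv (g : ∀ i, (F i)ˣ) (v : ∀ j, ZMod (ℓ j)) (x : VB F ℓ) :
    blk (cycv g v x) = blk x := by
  rcases x with ⟨i, x⟩ | ⟨j, y⟩ <;> rfl

theorem n4c_blk_mulv (w : ∀ j, (ZMod (ℓ j))ˣ) (x : VB F ℓ) : blk (mulv w x) = blk x := by
  rcases x with ⟨i, x⟩ | ⟨j, y⟩ <;> rfl

/-- a representative of a block -/
def n4cRep : I ⊕ J → VB F ℓ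
  | Sum.inl i => Sum.inl ⟨i, 0⟩
  | Sum.inr j => Sum.inr ⟨j, 0⟩

theorem n4c_blk_rep (x : I ⊕ J) : blk (n4cRep x : VB F ℓ) = x := by
  rcases x with i | j <;> rfl

variable [DecidableEq I] [DecidableEq J]

theorem n4c_mem_comp (w : ∀ j, (ZMod (ℓ j))ˣ) (T : Finset (Σ j : J, Om (ℓ j) (w j))) (j : J)
    (c : Om (ℓ j) (w j)) : c ∈ comp w T j ↔ (⟨j, c⟩ : Σ j : J, Om (ℓ j) (w j)) ∈ T := by
  unfold comp
  exact Finset.mem_preimage

end N4c

section VB

variable {I J : Type} {F : I → Type} [∀ i, Field (F i)] {ℓ : J → ℕ}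
variable [Fintype J] [∀ j, Fact (ℓ j).Prime]
variable [Fintype I] [DecidableEq I] [DecidableEq J]

/-- N4c -/
theorem gA_inv (w : ∀ j, (ZMod (ℓ j))ˣ) (A : Finset (Omg (I := I) w)) :
    (∀ t : ∀ i, F i, Inv (tra t) (gA (F := F) w A)) ∧
    (∀ (g : ∀ i, (F i)ˣ) (v : ∀ j, ZMod (ℓ j)), Inv (cycv g v) (gA (F := F) w A)) ∧
    Inv (mulv w) (gA (F := F) w A) := by
  refine ⟨?_, ?_, ?_⟩
  · rintro t x y (h | ⟨j, u, v, rfl, rfl, h⟩)
    · refine Or.inl ?_
      rw [n4c_blk_tra, n4c_blk_tra]; exact h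
    · exact Or.inr ⟨j, u, v, rfl, rfl, h⟩
  · rintro g v x y (h | ⟨j, u, v', rfl, rfl, h⟩)
    · refine Or.inl ?_
      rw [n4c_blk_cycv, n4c_blk_cycv]; exact h
    · exact Or.inr ⟨j, u + v j, v' + v j, rfl, rfl, n4c_cg_add _ _ _ _ _ h⟩
  · rintro x y (h | ⟨j, u, v', rfl, rfl, h⟩)
    · refine Or.inl ?_
      rw [n4c_blk_mulv, n4c_blk_mulv]; exact h
    · exact Or.inr ⟨j, w j * u, w j * v', rfl, rfl, n4c_cg_mul _ _ _ _ h⟩

/-- N4c -/
theorem gA_le (w : ∀ j, (ZMod (ℓ j))ˣ) (A B : Finset (Omg (I := I) w)) :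
    gA (F := F) w A ≤ gA w B ↔ A ⊆ B := by
  constructor
  · intro hle ω hω
    rcases ω with e | ⟨j, c⟩
    · obtain ⟨e, he⟩ := e
      induction e using Sym2.ind with
      | _ a b =>
        have hA : (gA (F := F) w A).Adj (n4cRep a) (n4cRep b) := by
          refine Or.inl ?_
          rw [n4c_blk_rep, n4c_blk_rep, n4c_toG_adj]
          exact ⟨he, Finset.mem_toLeft.mpr hω⟩
        rcases hle hA with h | ⟨j, u, v, hu, hv, h⟩
        · rw [n4c_blk_rep, n4c_blk_rep, n4c_toG_adj] at h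
          obtain ⟨h1, h2⟩ := h
          exact Finset.mem_toLeft.mp h2
        · exfalso
          apply he
          have h1 : a = Sum.inr j := by
            rw [← n4c_blk_rep (F := F) (ℓ := ℓ) a, hu]; rfl
          have h2 : b = Sum.inr j := by
            rw [← n4c_blk_rep (F := F) (ℓ := ℓ) b, hv]; rfl
          rw [h1, h2]; exact Sym2.mk_isDiag_iff.mpr rfl
    · obtain ⟨d, rfl⟩ := QuotientGroup.mk_surjective c
      have hA : (gA (F := F) w A).Adj (Sum.inr ⟨j, 0⟩) (Sum.inr ⟨j, (d : ZMod (ℓ j))⟩) := by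
        refine Or.inr ⟨j, 0, d, rfl, rfl, d.ne_zero.symm, d, by rw [zero_add], ?_⟩
        rw [n4c_mem_comp]
        exact Finset.mem_toRight.mpr hω
      rcases hle hA with h | ⟨j', u, v, hu, hv, h⟩
      · exact absurd h ((toG B.toLeft).loopless.irrefl _)
      · simp only [Sum.inr.injEq, Sigma.mk.injEq] at hu hv
        obtain ⟨rfl, hu⟩ := hu
        obtain ⟨_, hv⟩ := hv
        have hu' := eq_of_heq hu
        have hv' := eq_of_heq hv
        subst hu' hv'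
        obtain ⟨_, d', hd', hT⟩ := h
        rw [zero_add] at hd'
        have hdd : d = d' := Units.ext hd'
        subst hdd
        rw [n4c_mem_comp] at hT
        exact Finset.mem_toRight.mp hT
  · intro hAB x y h
    rcases h with h | ⟨j, u, v, hx, hy, h⟩
    · refine Or.inl (n4c_toG_mono ?_ _ _ h)
      intro e he
      exact Finset.mem_toLeft.mpr (hAB (Finset.mem_toLeft.mp he))
    · refine Or.inr ⟨j, u, v, hx, hy, n4c_cg_mono _ ?_ _ _ h⟩
      intro c hc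
      rw [n4c_mem_comp] at hc ⊢
      exact Finset.mem_toRight.mpr (hAB (Finset.mem_toRight.mp hc))

end VB

end Pool.Agent.H98R2.Nb
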