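import Pool.Agent.H23.L.Nb.Defs

set_option autoImplicit false

/-!
N7: cubes in circulant graphs.
-/

namespace Pool.Agent.H98R2.Nb

open Finset Pool.Agent.H98R2.Ev

namespace N7

/-- all signed sums of `d 0, ..., d (n-1)` -/
noncomputable def sgs {l : ℕ} (d : ℕ → (ZMod l)ˣ) (n : ℕ) : Finset (ZMod l) :=
  (univ : Finset (Fin n → SignType)).image
    fun ε => ∑ i : Fin n, ((ε i : ℤ) : ZMod l) * (d i : ZMod l)

theorem card_sgs {l : ℕ} (d : ℕ → (ZMod l)ˣ) (n : ℕ) : (sgs d n).card ≤ 3 ^ n := by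
  refine card_image_le.trans ?_
  rw [Finset.card_univ, Fintype.card_fun, Fintype.card_fin]
  exact le_of_eq (by rfl)

theorem mem_sgs {l : ℕ} (d : ℕ → (ZMod l)ˣ) (n : ℕ) {A B : Finset ℕ} (hA : A ⊆ range n)
    (hB : B ⊆ range n) :
    ∑ i ∈ A, (d i : ZMod l) - ∑ i ∈ B, (d i : ZMod l) ∈ sgs d n := by
  classical
  unfold sgs
  rw [mem_image]
  refine ⟨fun i => if (i : ℕ) ∈ A ∧ (i : ℕ) ∉ B then 1 else if (i : ℕ) ∉ A ∧ (i : ℕ) ∈ B then -1
    else 0, mem_univ _, ?_⟩
  have h1 : ∑ i ∈ A, (d i : ZMod l) = ∑ i ∈ range n, if i ∈ A then (d i : ZMod l) else 0 := by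
    rw [← sum_filter]
    congr 1
    ext i
    rw [mem_filter]
    exact ⟨fun h => ⟨hA h, h⟩, fun h => h.2⟩
  have h2 : ∑ i ∈ B, (d i : ZMod l) = ∑ i ∈ range n, if i ∈ B then (d i : ZMod l) else 0 := by
    rw [← sum_filter]
    congr 1
    ext i
    rw [mem_filter]
    exact ⟨fun h => ⟨hB h, h⟩, fun h => h.2⟩
  rw [h1, h2, ← sum_sub_distrib, ← Fin.sum_univ_eq_sum_range
    (fun i => (if i ∈ A then (d i : ZMod l) else 0) - if i ∈ B then (d i : ZMod l) else 0)]
  apply sum_congr rfl
  intro i _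
  by_cases ha : (i : ℕ) ∈ A <;> by_cases hb : (i : ℕ) ∈ B <;> simp [ha, hb]

theorem exists_seq {l : ℕ} [NeZero l] (D : Finset (ZMod l)ˣ) (N : ℕ) (hN : 3 ^ N ≤ D.card) :
    ∀ n ≤ N, ∃ d : ℕ → (ZMod l)ˣ, (∀ i < n, d i ∈ D) ∧
      ∀ A B : Finset ℕ, A ⊆ range n → B ⊆ range n →
        ∑ i ∈ A, (d i : ZMod l) = ∑ i ∈ B, (d i : ZMod l) → A = B := by
  classical
  intro n
  induction n with
  | zero =>
    intro _
    refine ⟨fun _ => 1, fun i hi => absurd hi (Nat.not_lt_zero i), fun A B hA hB _ => ?_⟩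
    rw [range_zero, subset_empty] at hA hB
    rw [hA, hB]
  | succ n ih =>
    intro hn
    obtain ⟨d, hd, hinj⟩ := ih (by omega)
    obtain ⟨δ, hδD, hδ⟩ : ∃ δ ∈ D, (δ : ZMod l) ∉ sgs d n := by
      by_contra hcon
      push Not at hcon
      have h1 : D.card ≤ (sgs d n).card :=
        card_le_card_of_injOn (fun u : (ZMod l)ˣ => (u : ZMod l)) (fun u hu => hcon u hu)
          (fun u _ v _ h => Units.ext h)
      have h2 := card_sgs d n
      have h3 : 3 ^ n < 3 ^ N := Nat.pow_lt_pow_right (by norm_num) (by omega)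
      omega
    have hup : ∀ A : Finset ℕ, A ⊆ range n →
        ∑ i ∈ A, ((Function.update d n δ i : (ZMod l)ˣ) : ZMod l) = ∑ i ∈ A, (d i : ZMod l) := by
      intro A hA
      apply sum_congr rfl
      intro i hi
      have : i ≠ n := by
        have := mem_range.1 (hA hi)
        omega
      rw [Function.update_of_ne this]
    have hsub : ∀ A : Finset ℕ, A ⊆ range (n + 1) → A.erase n ⊆ range n := by
      intro A hA i hi
      rw [mem_erase] at hi
      have := mem_range.1 (hA hi.2)
      rw [mem_range]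
      omega
    have hsum : ∀ A : Finset ℕ, A ⊆ range (n + 1) → n ∈ A →
        ∑ i ∈ A, ((Function.update d n δ i : (ZMod l)ˣ) : ZMod l) =
          (δ : ZMod l) + ∑ i ∈ A.erase n, (d i : ZMod l) := by
      intro A hA hn
      rw [← add_sum_erase A _ hn, Function.update_self, hup _ (hsub A hA)]
    have hsub' : ∀ A : Finset ℕ, A ⊆ range (n + 1) → n ∉ A → A ⊆ range n := by
      intro A hA hn
      rw [← erase_eq_of_notMem hn]
      exact hsub A hA
    refine ⟨Function.update d n δ, ?_, ?_⟩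
    · intro i hi
      rcases Nat.lt_succ_iff_lt_or_eq.1 hi with h | h
      · rw [Function.update_of_ne h.ne]
        exact hd i h
      · rw [h, Function.update_self]
        exact hδD
    · intro A B hA hB h
      by_cases ha : n ∈ A <;> by_cases hb : n ∈ B
      · rw [hsum A hA ha, hsum B hB hb] at h
        have := hinj _ _ (hsub A hA) (hsub B hB) (add_left_cancel h)
        rw [← insert_erase ha, ← insert_erase hb, this]
      · exfalso
        rw [hsum A hA ha, hup B (hsub' B hB hb)] at h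
        apply hδ
        rw [eq_sub_of_add_eq h]
        exact mem_sgs d n (hsub' B hB hb) (hsub A hA)
      · exfalso
        rw [hsum B hB hb, hup A (hsub' A hA ha)] at h
        apply hδ
        rw [eq_sub_of_add_eq h.symm]
        exact mem_sgs d n (hsub' A hA ha) (hsub B hB)
      · rw [hup A (hsub' A hA ha), hup B (hsub' B hB hb)] at h
        exact hinj _ _ (hsub' A hA ha) (hsub' B hB hb) h

end N7

/-- N7 -/
theorem cube_in_circ (l : ℕ) [Fact l.Prime] (w : (ZMod l)ˣ) (T : Finset (Om l w))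
    (hT : T.Nonempty) (N : ℕ) (hN : 3 ^ N ≤ orderOf w) :
    ∃ ψ : Finset (Fin N) → ZMod l, Function.Injective ψ ∧
      ∀ A B, (symmDiff A B).card = 1 → (cg w T).Adj (ψ A) (ψ B) := by
  classical
  obtain ⟨t, ht⟩ := hT
  obtain ⟨d₀, rfl⟩ := QuotientGroup.mk_surjective t
  set D : Finset (ZMod l)ˣ := univ.filter fun d => (QuotientGroup.mk d : Om l w) ∈ T with hD
  have hcard : 3 ^ N ≤ D.card := by
    refine hN.trans ?_
    have h1 : ((range (orderOf w)).image fun i => d₀ * w ^ i) ⊆ D := by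
      intro x hx
      rw [mem_image] at hx
      obtain ⟨i, _, rfl⟩ := hx
      rw [hD, mem_filter]
      refine ⟨mem_univ _, ?_⟩
      have h2 : (QuotientGroup.mk (d₀ * w ^ i) : Om l w) = QuotientGroup.mk d₀ := by
        rw [QuotientGroup.eq]
        have h3 : (d₀ * w ^ i)⁻¹ * d₀ = (w ^ i)⁻¹ := by
          rw [mul_inv_rev, mul_assoc, inv_mul_cancel, mul_one]
        rw [h3]
        exact Subgroup.inv_mem _ (Subgroup.pow_mem _ (Subgroup.subset_closure (by simp)) i)
      rw [h2]
      exact ht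
    have h2 : ((range (orderOf w)).image fun i => d₀ * w ^ i).card = orderOf w := by
      rw [card_image_of_injOn, card_range]
      intro i hi j hj h
      have h3 : w ^ i = w ^ j := mul_left_cancel h
      exact pow_injOn_Iio_orderOf (by simpa using hi) (by simpa using hj) h3
    rw [← h2]
    exact card_le_card h1
  obtain ⟨d, hd, hinj⟩ := N7.exists_seq D N hcard N le_rfl
  have hψ : Function.Injective (fun A : Finset (Fin N) => ∑ i ∈ A, (d i : ZMod l)) := by
    intro A B h
    have h1 : ∀ A : Finset (Fin N), ∑ i ∈ A, (d i : ZMod l) =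
        ∑ i ∈ A.map Fin.valEmbedding, (d i : ZMod l) := by
      intro A
      rw [sum_map]
      rfl
    have h2 : ∀ A : Finset (Fin N), A.map Fin.valEmbedding ⊆ range N := by
      intro A i hi
      rw [mem_map] at hi
      obtain ⟨j, _, rfl⟩ := hi
      exact mem_range.2 j.2
    simp only [h1] at h
    exact Finset.map_injective _ (hinj _ _ (h2 A) (h2 B) h)
  refine ⟨fun A => ∑ i ∈ A, (d i : ZMod l), hψ, ?_⟩
  have key : ∀ (i : Fin N) (B : Finset (Fin N)), i ∉ B →
      (cg w T).Adj (∑ i ∈ B, (d i : ZMod l)) (∑ i ∈ insert i B, (d i : ZMod l)) := by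
    intro i B hi
    refine ⟨fun h => ?_, d i, ?_, ?_⟩
    · have := hψ h
      exact hi (this ▸ mem_insert_self i B)
    · rw [sum_insert hi, add_comm]
    · have := hd i i.2
      rw [hD, mem_filter] at this
      exact this.2
  intro A B h
  rw [card_eq_one] at h
  obtain ⟨i, hi⟩ := h
  have hmem : ∀ j, (j ∈ A ∧ j ∉ B ∨ j ∈ B ∧ j ∉ A) ↔ j = i := by
    intro j
    rw [← mem_singleton, ← hi, mem_symmDiff]
  rcases (hmem i).2 rfl with ⟨ha, hb⟩ | ⟨hb, ha⟩
  · have : A = insert i B := by
      ext j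
      rw [mem_insert, ← hmem j]
      have h1 := hmem j
      by_cases hji : j = i
      · subst hji; tauto
      · tauto
    rw [this]
    exact (key i B hb).symm
  · have : B = insert i A := by
      ext j
      rw [mem_insert, ← hmem j]
      have h1 := hmem j
      by_cases hji : j = i
      · subst hji; tauto
      · tauto
    rw [this]
    exact key i A ha

end Pool.Agent.H98R2.Nb
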